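import Mathlib
import Pool.Agent.FourExp.Diff

set_option autoImplicit false

namespace Pool.Agent.FourExp.G

open MvPolynomial

variable {L : Type*} [Field L] [CharZero L] [Algebra ℚ L]
variable {ι : Type*}

open Classical in
/-- coefficientwise derivation of a polynomial -/
noncomputable def dc (D : Derivation ℚ L L) (p : MvPolynomial ι L) : MvPolynomial ι L :=
  ∑ x ∈ p.support, monomial x (D (coeff x p))

omit [CharZero L] in
lemma coeff_dc (D : Derivation ℚ L L) (p : MvPolynomial ι L) (x : ι →₀ ℕ) :
    coeff x (dc D p) = D (coeff x p) := by
  classical
  rw [dc, coeff_sum]
  simp only [coeff_monomial]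
  rw [Finset.sum_ite_eq']
  split_ifs with h
  · rfl
  · rw [notMem_support_iff.mp h, map_zero]

omit [CharZero L] in
lemma dc_add (D : Derivation ℚ L L) (p q : MvPolynomial ι L) : dc D (p + q) = dc D p + dc D q := by
  ext x
  rw [coeff_dc, coeff_add, coeff_add, coeff_dc, coeff_dc, map_add]

omit [CharZero L] in
lemma dc_C (D : Derivation ℚ L L) (a : L) : dc D (C a : MvPolynomial ι L) = C (D a) := by
  classical
  ext x
  rw [coeff_dc, coeff_C, coeff_C]
  split_ifs
  · rfl
  · rw [map_zero]

omit [CharZero L] in
lemma dc_mul_X (D : Derivation ℚ L L) (p : MvPolynomial ι L) (i : ι) :
    dc D (p * X i) = dc D p * X i := by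
  classical
  ext x
  rw [coeff_dc, coeff_mul_X', coeff_mul_X', coeff_dc]
  split_ifs
  · rfl
  · rw [map_zero]

variable [Fintype ι]

omit [CharZero L] in
lemma eval_dc (D : Derivation ℚ L L) (e : ι → L) (p : MvPolynomial ι L) :
    D (eval e p) = eval e (dc D p) + ∑ i, eval e (pderiv i p) * D (e i) := by
  classical
  induction p using MvPolynomial.induction_on with
  | C a => simp [dc_C]
  | add p q hp hq =>
    rw [map_add, map_add, hp, hq, dc_add, map_add]
    simp only [map_add, add_mul, Finset.sum_add_distrib]
    ring
  | mul_X p i hp =>
    rw [map_mul, eval_X, Derivation.leibniz, hp, dc_mul_X, map_mul, eval_X]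
    simp only [smul_eq_mul, pderiv_mul, map_add, map_mul, eval_X, add_mul, Finset.sum_add_distrib]
    have h1 : ∑ j, eval e p * eval e (pderiv j (X i : MvPolynomial ι L)) * D (e j) =
        eval e p * D (e i) := by
      rw [Finset.sum_eq_single i]
      · rw [pderiv_X_self, map_one, mul_one]
      · intro j _ hj
        rw [pderiv_X_of_ne hj.symm, map_zero, mul_zero, zero_mul]
      · intro h; exact absurd (Finset.mem_univ _) h
    rw [h1, mul_add, Finset.mul_sum]
    have h2 : ∑ j, eval e (pderiv j p) * e i * D (e j) =
        ∑ j, e i * (eval e (pderiv j p) * D (e j)) := by
      apply Finset.sum_congr rfl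
      intro j _
      ring
    rw [h2]
    ring

/-- the total derivative of a polynomial relation -/
noncomputable def td (D : Derivation ℚ L L) (e : ι → L) (p : MvPolynomial ι L) : MvPolynomial ι L :=
  dc D p + ∑ i, pderiv i p * C (D (e i))

omit [CharZero L] in
lemma eval_td (D : Derivation ℚ L L) (e : ι → L) (p : MvPolynomial ι L) :
    eval e (td D e p) = D (eval e p) := by
  rw [eval_dc, td, map_add, map_sum]
  congr 1
  apply Finset.sum_congr rfl
  intro i _
  rw [map_mul, eval_C]

omit [CharZero L] in
lemma coeff_td (D : Derivation ℚ L L) (e : ι → L) (p : MvPolynomial ι L) (x : ι →₀ ℕ) :
    coeff x (td D e p) = D (coeff x p) +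
      ∑ i, coeff (x + Finsupp.single i 1) p * ((x i : L) + 1) * D (e i) := by
  rw [td, coeff_add, coeff_dc, coeff_sum]
  congr 1
  apply Finset.sum_congr rfl
  intro i _
  rw [mul_comm, coeff_C_mul, coeff_pderiv, mul_comm]

variable (K : IntermediateField ℚ L) {κ : Type*} (D : κ → Derivation ℚ L L)

/-- The Kolchin–Ostrowski theorem: primitives of elements of a differential field with the same
constants, no rational combination of which is constant modulo the field, are algebraically
independent. -/
theorem kolchin
    (h1 : ∀ k, ∀ x ∈ K, D k x ∈ K)
    (h2 : ∀ x ∈ K, (∀ k, D k x = 0) → ∃ q : ℚ, x = algebraMap ℚ L q)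
    (e : ι → L) (he : ∀ k i, D k (e i) ∈ K)
    (hI : ∀ c : ι → ℚ, ∀ f ∈ K, (∀ k, D k (∑ i, algebraMap ℚ L (c i) * e i + f) = 0) → c = 0) :
    ∀ d : ℕ, ∀ p : MvPolynomial ι L, (∀ x, coeff x p ∈ K) →
      (∀ x, coeff x p ≠ 0 → x.degree < d) → eval e p = 0 → p = 0 := by
  classical
  intro d
  induction d with
  | zero =>
    intro p _ hdeg _
    ext x
    by_contra h
    exact absurd (hdeg x h) (Nat.not_lt_zero _)
  | succ d ihd =>
    have inner : ∀ n : ℕ, ∀ p : MvPolynomial ι L, (∀ x, coeff x p ∈ K) →
        (∀ x, coeff x p ≠ 0 → x.degree < d + 1) →
        (p.support.filter (fun x => x.degree = d)).card ≤ n → eval e p = 0 → p = 0 := by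
      intro n
      induction n with
      | zero =>
        intro p hpK hdeg hcard hev
        apply ihd p hpK _ hev
        intro x hx
        have h3 := hdeg x hx
        rcases Nat.lt_succ_iff_lt_or_eq.mp h3 with h4 | h4
        · exact h4
        · exfalso
          have h5 : x ∈ p.support.filter (fun x => x.degree = d) := by
            rw [Finset.mem_filter, mem_support_iff]
            exact ⟨hx, h4⟩
          have := Finset.card_pos.mpr ⟨_, h5⟩
          omega
      | succ n ihn =>
        intro p hpK hdeg hcard hev
        by_cases htop : ∃ x, coeff x p ≠ 0 ∧ x.degree = d
        swap
        · push Not at htop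
          apply ihd p hpK _ hev
          intro x hx
          exact lt_of_le_of_ne (Nat.lt_succ_iff.mp (hdeg x hx)) (htop x hx)
        · exfalso
          obtain ⟨x0, hx0, hx0d⟩ := htop
          set t := coeff x0 p with ht
          have htK : t ∈ K := hpK _
          set p' : MvPolynomial ι L := C t⁻¹ * p with hp'
          have hc' : ∀ x, coeff x p' = t⁻¹ * coeff x p := fun x => by rw [hp', coeff_C_mul]
          have hc0 : coeff x0 p' = 1 := by rw [hc', ← ht, inv_mul_cancel₀ hx0]
          have hp'K : ∀ x, coeff x p' ∈ K := fun x => by
            rw [hc']; exact K.mul_mem (K.inv_mem htK) (hpK x)
          have hp'deg : ∀ x, coeff x p' ≠ 0 → x.degree < d + 1 := fun x hx => by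
            apply hdeg
            intro h
            apply hx
            rw [hc', h, mul_zero]
          have hev' : eval e p' = 0 := by rw [hp', map_mul, hev, mul_zero]
          have htd : ∀ k, td (D k) e p' = 0 := by
            intro k
            apply ihn
            · intro x
              rw [coeff_td]
              refine K.add_mem (h1 k _ (hp'K x)) (K.sum_mem (fun i _ => ?_))
              refine K.mul_mem (K.mul_mem (hp'K _) ?_) (he k i)
              exact K.add_mem (K.natCast_mem _) K.one_mem
            · intro x hx
              by_contra hx'
              push Not at hx'
              apply hx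
              rw [coeff_td]
              have h3 : coeff x p' = 0 := by
                by_contra h
                have := hp'deg x h
                omega
              rw [h3, map_zero, zero_add]
              apply Finset.sum_eq_zero
              intro i _
              have h4 : coeff (x + Finsupp.single i 1) p' = 0 := by
                by_contra h
                have h5 := hp'deg _ h
                rw [map_add, Finsupp.degree_single] at h5
                omega
              rw [h4, zero_mul, zero_mul]
            · have hss : (td (D k) e p').support.filter (fun x => x.degree = d) ⊆
                  (p.support.filter (fun x => x.degree = d)).erase x0 := by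
                intro x hx
                rw [Finset.mem_filter, mem_support_iff] at hx
                obtain ⟨hx1, hx2⟩ := hx
                have h4 : ∀ i, coeff (x + Finsupp.single i 1) p' = 0 := by
                  intro i
                  by_contra h
                  have h5 := hp'deg _ h
                  rw [map_add, Finsupp.degree_single] at h5
                  omega
                have h6 : coeff x (td (D k) e p') = D k (coeff x p') := by
                  rw [coeff_td, Finset.sum_eq_zero, add_zero]
                  intro i _
                  rw [h4, zero_mul, zero_mul]
                rw [h6] at hx1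
                rw [Finset.mem_erase, Finset.mem_filter, mem_support_iff]
                refine ⟨?_, ?_, hx2⟩
                · rintro rfl
                  apply hx1
                  rw [hc0, Derivation.map_one_eq_zero]
                · intro h
                  apply hx1
                  rw [hc', h, mul_zero, map_zero]
              have h3 := Finset.card_le_card hss
              have h7 : x0 ∈ p.support.filter (fun x => x.degree = d) := by
                rw [Finset.mem_filter, mem_support_iff]
                exact ⟨hx0, hx0d⟩
              rw [Finset.card_erase_of_mem h7] at h3
              omega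
            · rw [eval_td, hev', map_zero]
          -- the top coefficients are rational
          have hrat : ∀ x, x.degree = d → ∃ q : ℚ, coeff x p' = algebraMap ℚ L q := by
            intro x hx
            apply h2 _ (hp'K x)
            intro k
            have h3 := congrArg (coeff x) (htd k)
            rw [coeff_td, coeff_zero, Finset.sum_eq_zero, add_zero] at h3
            · exact h3
            · intro i _
              have h4 : coeff (x + Finsupp.single i 1) p' = 0 := by
                by_contra h
                have h5 := hp'deg _ h
                rw [map_add, Finsupp.degree_single] at h5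
                omega
              rw [h4, zero_mul, zero_mul]
          by_cases hd0 : d = 0
          · -- then `p'` is constant
            have h3 : p' = C (coeff x0 p') := by
              have hx00 : x0 = 0 := by
                rw [← Finsupp.degree_eq_zero_iff, hx0d, hd0]
              ext x
              rw [coeff_C, hx00]
              split_ifs with h
              · rw [h]
              · by_contra h4
                have h5 := hp'deg x h4
                apply h
                have : x.degree = 0 := by omega
                rw [Finsupp.degree_eq_zero_iff] at this
                exact this.symm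
            rw [h3, eval_C, hc0] at hev'
            exact one_ne_zero hev'
          · obtain ⟨i0, hi0⟩ : ∃ i0, x0 i0 ≠ 0 := by
              by_contra h
              push Not at h
              have h3 : x0 = 0 := Finsupp.ext h
              rw [h3, map_zero] at hx0d
              exact hd0 hx0d.symm
            set y := x0 - Finsupp.single i0 1 with hy
            have hyx : y + Finsupp.single i0 1 = x0 := by
              rw [hy]
              apply tsub_add_cancel_of_le
              rw [Finsupp.single_le_iff]
              omega
            have hydeg : y.degree + 1 = d := by
              have := congrArg Finsupp.degree hyx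
              rw [map_add, Finsupp.degree_single] at this
              omega
            have hyrat : ∀ i, ∃ q : ℚ, coeff (y + Finsupp.single i 1) p' = algebraMap ℚ L q := by
              intro i
              apply hrat
              rw [map_add, Finsupp.degree_single]
              exact hydeg
            choose c hc using hyrat
            have h3 := hI (fun i => c i * ((y i : ℚ) + 1)) (coeff y p') (hp'K y) (by
              intro k
              have h4 := congrArg (coeff y) (htd k)
              rw [coeff_td, coeff_zero] at h4
              rw [map_add, map_sum, add_comm, ← h4]
              congr 1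
              apply Finset.sum_congr rfl
              intro i _
              rw [hc i, Derivation.leibniz, Derivation.map_algebraMap]
              simp only [smul_eq_mul, mul_zero, add_zero, map_mul, map_add, map_natCast, map_one])
            have h4 := congrFun h3 i0
            simp only [Pi.zero_apply, mul_eq_zero] at h4
            have h5 : ((y i0 : ℚ) + 1) ≠ 0 := by positivity
            have h6 := h4.resolve_right h5
            have h7 := hc i0
            rw [hyx, hc0, h6, map_zero] at h7
            exact one_ne_zero h7
    intro p hpK hdeg hev
    exact inner _ p hpK hdeg le_rfl hev

end Pool.Agent.FourExp.G
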