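import Mathlib
import Pool.Agent.FourExp.G.Poly

set_option autoImplicit false

namespace Pool.Agent.FourExp.G

open MvPolynomial

variable {L : Type*} [Field L] [CharZero L] [Algebra ℚ L] (K : IntermediateField ℚ L)
variable {κ : Type*} (D : κ → Derivation ℚ L L)

/-- The differential-algebraic core: a polynomial relation between logarithms with
coefficients in `K` is a consequence of the rational linear relations among the logarithms (encoded
by the matrix `P`). -/
theorem diff_core_poly {ι : Type*} [Fintype ι]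
    (h1 : ∀ k, ∀ x ∈ K, D k x ∈ K)
    (h2 : ∀ x ∈ K, (∀ k, D k x = 0) → ∃ q : ℚ, x = algebraMap ℚ L q)
    (w a : ι → L) (ha : ∀ i, a i ∈ K) (ha0 : ∀ i, a i ≠ 0)
    (hw : ∀ k i, D k (w i) * a i = D k (a i))
    (h4 : ∀ e ∈ K, ∀ u ∈ K, u ≠ 0 → (∀ k, D k u = u * D k e) → ∃ q : ℚ, e = algebraMap ℚ L q)
    (h5 : ∀ n : ι → ℤ, (∃ q : ℚ, ∏ i, a i ^ n i = algebraMap ℚ L q) →
      ∑ i, (n i : L) * w i = 0)
    (G : MvPolynomial ι L) (hG : ∀ x, coeff x G ∈ K) (h7 : eval w G = 0) :
    ∃ P : ι → ι → ℚ, (∀ k, w k = ∑ i, algebraMap ℚ L (P k i) * w i) ∧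
      bind₁ (fun k => ∑ i, C (algebraMap ℚ L (P k i)) * X i) G = 0 := by
  classical
  -- scaling of rational combinations
  have scale : ∀ c : ι → ℚ, ∃ (M : ℕ) (n : ι → ℤ), (M : L) ≠ 0 ∧
      ∑ i, (n i : L) * w i = (M : L) * ∑ i, algebraMap ℚ L (c i) * w i := by
    intro c
    obtain ⟨M, n, hM, hn⟩ := Pool.Agent.FourExp.exists_int_scale c
    refine ⟨M, n, by exact_mod_cast hM, ?_⟩
    rw [Finset.mul_sum]
    apply Finset.sum_congr rfl
    intro i _
    have : (n i : L) = algebraMap ℚ L ((M : ℚ) * c i) := by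
      rw [← hn i]; simp
    rw [this]
    simp [mul_assoc]
  have hdw : ∀ k i, D k (w i) ∈ K := by
    intro k i
    have : D k (w i) = D k (a i) / a i := by
      rw [eq_div_iff (ha0 i)]; exact hw k i
    rw [this]
    exact K.div_mem (h1 k _ (ha i)) (ha i)
  -- rational combinations which are constant modulo `K` vanish
  have hd : ∀ c : ι → ℚ, ∀ f ∈ K, (∀ k, D k (∑ i, algebraMap ℚ L (c i) * w i + f) = 0) →
      ∑ i, algebraMap ℚ L (c i) * w i = 0 := by
    intro c f hf hc
    obtain ⟨M, n, hM, hn⟩ := scale c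
    have huK : ∏ i, a i ^ n i ∈ K := K.prod_mem (fun i _ => zpow_mem (ha i) _)
    have hu0 : ∏ i, a i ^ n i ≠ 0 :=
      Finset.prod_ne_zero_iff.mpr (fun i _ => zpow_ne_zero _ (ha0 i))
    have hMf : -((M : L) * f) ∈ K := K.neg_mem (K.mul_mem (by exact_mod_cast K.natCast_mem M) hf)
    have hDu : ∀ k, D k (∏ i, a i ^ n i) = (∏ i, a i ^ n i) * D k (-((M : L) * f)) := by
      intro k
      rw [Pool.Agent.FourExp.deriv_prod_zpow Finset.univ (D k) a w ha0 (fun i => hw k i) n, hn]
      congr 1
      have h3 := hc k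
      rw [map_add] at h3
      rw [map_neg, Derivation.leibniz, Derivation.leibniz]
      simp only [smul_eq_mul, Derivation.map_natCast, mul_zero, add_zero]
      linear_combination (M : L) * h3
    obtain ⟨q, hq⟩ := h4 _ hMf _ huK hu0 hDu
    have hu : ∀ k, D k (∏ i, a i ^ n i) = 0 := by
      intro k
      rw [hDu k, hq, Derivation.map_algebraMap, mul_zero]
    have h' := h5 n (h2 _ huK hu)
    rw [hn] at h'
    exact (mul_eq_zero.mp h').resolve_left hM
  -- a `ℚ`-basis of the span of the `w i`
  let V : Submodule ℚ L := Submodule.span ℚ (Set.range w)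
  have : FiniteDimensional ℚ V := FiniteDimensional.span_of_finite ℚ (Set.finite_range w)
  let b := Module.finBasis ℚ V
  set r := Module.finrank ℚ V with hr
  let e : Fin r → L := fun l => (b l : L)
  let c : ι → Fin r → ℚ := fun i l => b.repr ⟨w i, Submodule.subset_span ⟨i, rfl⟩⟩ l
  have hwc : ∀ i, w i = ∑ l, algebraMap ℚ L (c i l) * e l := by
    intro i
    have h := b.sum_repr ⟨w i, Submodule.subset_span ⟨i, rfl⟩⟩
    have h' := congrArg (fun x : V => (x : L)) h
    simp only [Submodule.coe_sum, Submodule.coe_smul] at h'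
    rw [← h']
    apply Finset.sum_congr rfl
    intro l _
    rw [Algebra.smul_def]
  have hew : ∀ l, ∃ g : ι → ℚ, e l = ∑ i, algebraMap ℚ L (g i) * w i := by
    intro l
    have hmem : e l ∈ Submodule.span ℚ (Set.range w) := (b l).2
    rw [Submodule.mem_span_range_iff_exists_fun] at hmem
    obtain ⟨g, hg⟩ := hmem
    exact ⟨g, by rw [← hg]; apply Finset.sum_congr rfl; intro i _; rw [Algebra.smul_def]⟩
  choose g hg using hew
  have hcomb : ∀ f : Fin r → ℚ, ∑ l, algebraMap ℚ L (f l) * e l =
      ∑ i, algebraMap ℚ L (∑ l, f l * g l i) * w i := by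
    intro f
    simp_rw [hg, Finset.mul_sum]
    rw [Finset.sum_comm]
    apply Finset.sum_congr rfl
    intro i _
    rw [map_sum, Finset.sum_mul]
    apply Finset.sum_congr rfl
    intro l _
    rw [map_mul]
    ring
  have hindep : ∀ f : Fin r → ℚ, ∑ l, algebraMap ℚ L (f l) * e l = 0 → f = 0 := by
    intro f hf
    have h : ∑ l, f l • b l = 0 := by
      apply Subtype.ext
      simp only [Submodule.coe_sum, Submodule.coe_smul, ZeroMemClass.coe_zero]
      rw [← hf]
      apply Finset.sum_congr rfl
      intro l _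
      rw [Algebra.smul_def]
    have := Fintype.linearIndependent_iff.mp b.linearIndependent f h
    exact funext this
  have hde : ∀ k l, D k (e l) ∈ K := by
    intro k l
    rw [hg l, map_sum]
    apply K.sum_mem
    intro i _
    rw [Derivation.leibniz]
    simp only [smul_eq_mul, Derivation.map_algebraMap, mul_zero, add_zero]
    exact K.mul_mem (K.algebraMap_mem _) (hdw k i)
  have hI : ∀ f : Fin r → ℚ, ∀ x ∈ K,
      (∀ k, D k (∑ l, algebraMap ℚ L (f l) * e l + x) = 0) → f = 0 := by
    intro f x hx hDx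
    apply hindep
    rw [hcomb f] at hDx ⊢
    exact hd _ x hx hDx
  -- the polynomial in terms of the basis
  set G' : MvPolynomial (Fin r) L := bind₁ (fun k => ∑ l, C (algebraMap ℚ L (c k l)) * X l) G
    with hG'
  have hG'K : ∀ x, coeff x G' ∈ K := by
    have hS : G' ∈ (MvPolynomial.map (σ := Fin r) (algebraMap K L)).range := by
      have h3 : ∃ G0 : MvPolynomial ι K, MvPolynomial.map (algebraMap K L) G0 = G := by
        have := (MvPolynomial.mem_range_map_iff_coeffs_subset (f := algebraMap K L) (x := G)).mpr (by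
          intro y hy
          rw [Finset.mem_coe, MvPolynomial.mem_coeffs_iff] at hy
          obtain ⟨x, _, rfl⟩ := hy
          exact ⟨⟨_, hG x⟩, rfl⟩)
        exact this
      obtain ⟨G0, hG0⟩ := h3
      refine ⟨bind₁ (fun k => ∑ l, C (⟨algebraMap ℚ L (c k l), K.algebraMap_mem _⟩ : K) * X l) G0, ?_⟩
      rw [hG', ← hG0, MvPolynomial.map_bind₁]
      congr 1
      congr 1
      funext k
      rw [map_sum]
      apply Finset.sum_congr rfl
      intro l _
      rw [map_mul, map_C, map_X]
      rfl
    intro x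
    obtain ⟨F, hF⟩ := hS
    rw [← hF, MvPolynomial.coeff_map]
    exact (coeff x F).2
  have hevG' : eval e G' = 0 := by
    rw [hG', eval, eval₂Hom_bind₁]
    have h3 : (fun i => (eval₂Hom (RingHom.id L) e) (∑ l, C (algebraMap ℚ L (c i l)) * X l)) = w := by
      funext k
      rw [map_sum, hwc k]
      apply Finset.sum_congr rfl
      intro l _
      simp
    rw [h3]
    exact h7
  have hG'0 : G' = 0 := by
    apply kolchin K D h1 h2 e hde hI (G'.totalDegree + 1) G' hG'K _ hevG'
    intro x hx
    have h3 := le_totalDegree (mem_support_iff.mpr hx)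
    have h4 : (x.sum fun _ e => e) = x.degree := rfl
    omega
  refine ⟨fun k i => ∑ l, c k l * g l i, ?_, ?_⟩
  · intro k
    rw [← hcomb (c k)]
    exact hwc k
  · have h3 : bind₁ (fun k => ∑ i, C (algebraMap ℚ L (∑ l, c k l * g l i)) * X i) G =
        bind₁ (fun l => ∑ i, C (algebraMap ℚ L (g l i)) * X i) G' := by
      rw [hG', bind₁_bind₁]
      congr 1
      congr 1
      funext k
      rw [map_sum]
      have h4 : ∀ l, (bind₁ fun l => ∑ i : ι, C (algebraMap ℚ L (g l i)) * X i)
          (C (algebraMap ℚ L (c k l)) * X l) =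
          ∑ i : ι, C (algebraMap ℚ L (c k l * g l i)) * (X i : MvPolynomial ι L) := by
        intro l
        rw [map_mul, bind₁_X_right, Finset.mul_sum]
        apply Finset.sum_congr rfl
        intro i _
        rw [bind₁_C_right, map_mul, map_mul, mul_assoc]
      rw [Finset.sum_congr rfl (fun l _ => h4 l), Finset.sum_comm]
      apply Finset.sum_congr rfl
      intro i _
      rw [← Finset.sum_mul, map_sum, map_sum]
    rw [h3, hG'0, map_zero]

end Pool.Agent.FourExp.G
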