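import Mathlib

set_option autoImplicit false

namespace Pool.Agent.FourExp.G

/-- Linear algebra over a field: if the product of two linear forms `c₀, c₃` equals the product of
two linear forms `c₁, c₂` then the 2×2 matrix of linear forms has dependent rows or columns. -/
lemma forms_dichotomy {F : Type*} [Field F] [CharZero F] {ι : Type*} (c0 c1 c2 c3 : ι → F)
    (h : ∀ l m, c3 l * c0 m + c0 l * c3 m = c2 l * c1 m + c1 l * c2 m) :
    ∃ r s : F, (r ≠ 0 ∨ s ≠ 0) ∧
      ((∀ l, r * c0 l + s * c2 l = 0 ∧ r * c1 l + s * c3 l = 0) ∨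
       (∀ l, r * c0 l + s * c1 l = 0 ∧ r * c2 l + s * c3 l = 0)) := by
  have two : (2 : F) ≠ 0 := two_ne_zero
  by_cases h0 : ∀ l, c0 l = 0
  · by_cases h1 : ∀ l, c1 l = 0
    · exact ⟨1, 0, Or.inl one_ne_zero, Or.inl (fun l => ⟨by rw [h0 l]; ring, by rw [h1 l]; ring⟩)⟩
    · push Not at h1
      obtain ⟨m, hm⟩ := h1
      have h2 : ∀ l, c2 l = 0 := by
        have hmm := h m m
        rw [h0 m] at hmm
        have h2m : c2 m = 0 := by
          have h3 : 2 * c1 m * c2 m = 0 := by linear_combination -hmm
          exact (mul_eq_zero.mp h3).resolve_left (mul_ne_zero two hm)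
        intro l
        have hlm := h l m
        rw [h0 m, h0 l, h2m] at hlm
        have h3 : c1 m * c2 l = 0 := by linear_combination -hlm
        exact (mul_eq_zero.mp h3).resolve_left hm
      exact ⟨1, 0, Or.inl one_ne_zero, Or.inr (fun l => ⟨by rw [h0 l]; ring, by rw [h2 l]; ring⟩)⟩
  · push Not at h0
    obtain ⟨m, hm⟩ := h0
    set q := c1 m / c0 m with hq
    set r := c2 m / c0 m with hr
    have hc1 : c1 m = q * c0 m := by rw [hq]; field_simp
    have hc2 : c2 m = r * c0 m := by rw [hr]; field_simp
    have hc3 : c3 m = q * r * c0 m := by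
      have hmm := h m m
      rw [hc1, hc2] at hmm
      have h3 : 2 * c0 m * (c3 m - q * r * c0 m) = 0 := by linear_combination hmm
      exact sub_eq_zero.mp ((mul_eq_zero.mp h3).resolve_left (mul_ne_zero two hm))
    have key : ∀ l, c3 l = q * c2 l + r * c1 l - q * r * c0 l := by
      intro l
      have hlm := h l m
      rw [hc1, hc2, hc3] at hlm
      have h3 : c0 m * (c3 l - (q * c2 l + r * c1 l - q * r * c0 l)) = 0 := by
        linear_combination hlm
      exact sub_eq_zero.mp ((mul_eq_zero.mp h3).resolve_left hm)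
    have hxy : ∀ l n, (c2 l - r * c0 l) * (c1 n - q * c0 n) +
        (c2 n - r * c0 n) * (c1 l - q * c0 l) = 0 := by
      intro l n
      have hln := h l n
      rw [key l, key n] at hln
      linear_combination -hln
    by_cases hx : ∀ l, c2 l - r * c0 l = 0
    · refine ⟨-r, 1, Or.inr one_ne_zero, Or.inl (fun l => ⟨by linear_combination hx l, ?_⟩)⟩
      rw [key l]
      linear_combination q * hx l
    · push Not at hx
      obtain ⟨l0, hl0⟩ := hx
      have hy0 : c1 l0 - q * c0 l0 = 0 := by
        have h4 := hxy l0 l0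
        have h3 : 2 * (c2 l0 - r * c0 l0) * (c1 l0 - q * c0 l0) = 0 := by linear_combination h4
        exact (mul_eq_zero.mp h3).resolve_left (mul_ne_zero two hl0)
      have hy : ∀ n, c1 n - q * c0 n = 0 := by
        intro n
        have h4 := hxy l0 n
        rw [hy0] at h4
        have h3 : (c2 l0 - r * c0 l0) * (c1 n - q * c0 n) = 0 := by linear_combination h4
        exact (mul_eq_zero.mp h3).resolve_left hl0
      refine ⟨-q, 1, Or.inr one_ne_zero, Or.inr (fun l => ⟨by linear_combination hy l, ?_⟩)⟩
      rw [key l]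
      linear_combination r * hy l

end Pool.Agent.FourExp.G
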