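import Mathlib
import Pool.Agent.FourExp.Diff
import Pool.Agent.FourExp.G.Forms

set_option autoImplicit false

namespace Pool.Agent.FourExp.G

variable {L : Type*} [Field L] [CharZero L] [Algebra ℚ L] (K : IntermediateField ℚ L)
variable {κ : Type*} (D : κ → Derivation ℚ L L)

open Classical in
/-- Quadratic Kolchin–Ostrowski lemma for a symmetric matrix of coefficients. -/
lemma quad_indep_symm
    (h1 : ∀ k, ∀ x ∈ K, D k x ∈ K)
    (h2 : ∀ x ∈ K, (∀ k, D k x = 0) → ∃ q : ℚ, x = algebraMap ℚ L q)
    {ι : Type*} [Fintype ι] (e : ι → L) (he : ∀ k i, D k (e i) ∈ K)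
    (hlin : ∀ f : ι → L, (∀ i, f i ∈ K) → (∑ i, f i * e i ∈ K) → f = 0)
    (hI : ∀ c : ι → ℚ, ∀ f ∈ K, (∀ k, D k (∑ i, algebraMap ℚ L (c i) * e i + f) = 0) → c = 0) :
    ∀ n : ℕ, ∀ (q : ι → ι → L) (r : ι → L) (s : L), (∀ i j, q i j ∈ K) → (∀ i, r i ∈ K) → s ∈ K →
      (∀ i j, q i j = q j i) →
      (Finset.univ.filter (fun x : ι × ι => q x.1 x.2 ≠ 0)).card ≤ n →
      ∑ i, ∑ j, q i j * e i * e j + ∑ i, r i * e i + s = 0 → ∀ i j, q i j = 0 := by
  intro n
  induction n with
  | zero =>
    intro q r s _ _ _ _ hcard _ i j
    by_contra hij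
    have h3 : (i, j) ∈ Finset.univ.filter (fun x : ι × ι => q x.1 x.2 ≠ 0) := by simpa using hij
    have h4 := Finset.card_pos.mpr ⟨_, h3⟩
    omega
  | succ n ih =>
    intro q r s hq hr hs hsym hcard hrel
    by_contra hne
    push Not at hne
    obtain ⟨i0, j0, h0⟩ := hne
    set t := q i0 j0 with ht
    have htK : t ∈ K := hq _ _
    set q' : ι → ι → L := fun i j => q i j / t with hq'
    set r' : ι → L := fun i => r i / t with hr'
    set s' : L := s / t with hs'
    have hqK : ∀ i j, q' i j ∈ K := fun i j => K.div_mem (hq i j) htK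
    have hrK : ∀ i, r' i ∈ K := fun i => K.div_mem (hr i) htK
    have hsK : s' ∈ K := K.div_mem hs htK
    have hrel' : ∑ i, ∑ j, q' i j * e i * e j + ∑ i, r' i * e i + s' = 0 := by
      have h3 : ∑ i, ∑ j, q' i j * e i * e j + ∑ i, r' i * e i + s' =
          (∑ i, ∑ j, q i j * e i * e j + ∑ i, r i * e i + s) / t := by
        rw [add_div, add_div, Finset.sum_div, Finset.sum_div]
        congr 1
        congr 1
        · apply Finset.sum_congr rfl
          intro i _
          rw [Finset.sum_div]
          apply Finset.sum_congr rfl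
          intro j _
          simp only [hq']
          ring
        · apply Finset.sum_congr rfl
          intro i _
          simp only [hr']
          ring
      rw [h3, hrel, zero_div]
    -- the derived relation
    have hder : ∀ k, ∑ i, ∑ j, D k (q' i j) * e i * e j +
        ∑ j, (2 * ∑ i, q' i j * D k (e i) + D k (r' j)) * e j +
        (∑ i, r' i * D k (e i) + D k s') = 0 := by
      intro k
      have h3 := congrArg (D k) hrel'
      rw [map_add, map_add, map_sum, map_sum, map_zero] at h3
      have e1 : ∑ i, D k (∑ j, q' i j * e i * e j) = ∑ i, ∑ j, D k (q' i j) * e i * e j +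
          2 * ∑ i, ∑ j, q' i j * D k (e i) * e j := by
        have e2 : ∑ i, D k (∑ j, q' i j * e i * e j) =
            ∑ i, ∑ j, (D k (q' i j) * e i * e j + q' i j * D k (e i) * e j +
              q' i j * e i * D k (e j)) := by
          apply Finset.sum_congr rfl
          intro i _
          rw [map_sum]
          apply Finset.sum_congr rfl
          intro j _
          rw [Derivation.leibniz, Derivation.leibniz]
          simp only [smul_eq_mul]
          ring
        rw [e2]
        simp only [Finset.sum_add_distrib]
        have e3 : ∑ i, ∑ j, q' i j * e i * D k (e j) = ∑ i, ∑ j, q' i j * D k (e i) * e j := by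
          rw [Finset.sum_comm]
          apply Finset.sum_congr rfl
          intro j _
          apply Finset.sum_congr rfl
          intro i _
          have : q' i j = q' j i := by simp only [hq']; rw [hsym i j]
          rw [this]
          ring
        rw [e3]
        ring
      have e4 : ∑ i, D k (r' i * e i) = ∑ i, D k (r' i) * e i + ∑ i, r' i * D k (e i) := by
        rw [← Finset.sum_add_distrib]
        apply Finset.sum_congr rfl
        intro i _
        rw [Derivation.leibniz]
        simp only [smul_eq_mul]
        ring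
      have e5 : ∑ j, (2 * ∑ i, q' i j * D k (e i) + D k (r' j)) * e j =
          2 * ∑ i, ∑ j, q' i j * D k (e i) * e j + ∑ j, D k (r' j) * e j := by
        have e6 : 2 * ∑ i, ∑ j, q' i j * D k (e i) * e j =
            ∑ j, 2 * ∑ i, q' i j * D k (e i) * e j := by
          rw [Finset.sum_comm, Finset.mul_sum]
        rw [e6, ← Finset.sum_add_distrib]
        apply Finset.sum_congr rfl
        intro j _
        rw [add_mul, mul_assoc, Finset.sum_mul]
      rw [e1, e4] at h3
      rw [e5]
      linear_combination h3
    have hnewr : ∀ k j, 2 * ∑ i, q' i j * D k (e i) + D k (r' j) ∈ K := by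
      intro k j
      apply K.add_mem _ (h1 k _ (hrK j))
      have h2K : (2 : L) ∈ K := by exact_mod_cast K.natCast_mem 2
      exact K.mul_mem h2K (K.sum_mem (fun i _ => K.mul_mem (hqK i j) (he k i)))
    have hnews : ∀ k, ∑ i, r' i * D k (e i) + D k s' ∈ K := by
      intro k
      exact K.add_mem (K.sum_mem (fun i _ => K.mul_mem (hrK i) (he k i))) (h1 k _ hsK)
    have hD0 : ∀ k i j, D k (q' i j) = 0 := by
      intro k
      apply ih (fun i j => D k (q' i j)) _ _ (fun i j => h1 k _ (hqK i j)) (hnewr k) (hnews k)
        _ _ (hder k)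
      · intro i j
        have : q' i j = q' j i := by simp only [hq']; rw [hsym i j]
        rw [this]
      · have hss : Finset.univ.filter (fun x : ι × ι => D k (q' x.1 x.2) ≠ 0) ⊆
            (Finset.univ.filter (fun x : ι × ι => q x.1 x.2 ≠ 0)).erase (i0, j0) := by
          intro x hx
          simp only [Finset.mem_filter, Finset.mem_univ, true_and] at hx
          simp only [Finset.mem_erase, Finset.mem_filter, Finset.mem_univ, true_and]
          constructor
          · intro h'
            apply hx
            rw [h']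
            simp only [hq']
            rw [← ht, div_self h0]
            simp
          · intro h'
            apply hx
            simp only [hq', h', zero_div, map_zero]
        have h3 := Finset.card_le_card hss
        rw [Finset.card_erase_of_mem (by simpa using h0)] at h3
        omega
    have hqq : ∀ i j, ∃ c : ℚ, q' i j = algebraMap ℚ L c := fun i j =>
      h2 _ (hqK i j) (fun k => hD0 k i j)
    choose c hc using hqq
    -- the linear part vanishes
    have hlin0 : ∀ k j, 2 * ∑ i, q' i j * D k (e i) + D k (r' j) = 0 := by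
      intro k j
      have h3 := hder k
      have h4 : ∑ i, ∑ j, D k (q' i j) * e i * e j = 0 := by
        apply Finset.sum_eq_zero
        intro i _
        apply Finset.sum_eq_zero
        intro j _
        rw [hD0 k i j]
        ring
      rw [h4, zero_add] at h3
      have h5 := hlin (fun j => 2 * ∑ i, q' i j * D k (e i) + D k (r' j)) (hnewr k) (by
        have : ∑ j, (2 * ∑ i, q' i j * D k (e i) + D k (r' j)) * e j =
            -(∑ i, r' i * D k (e i) + D k s') := by linear_combination h3
        rw [this]
        exact K.neg_mem (hnews k))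
      exact congrFun h5 j
    have h6 := hI (fun i => 2 * c i j0) (r' j0) (hrK j0) (by
      intro k
      rw [← hlin0 k j0, map_add, map_sum, Finset.mul_sum]
      congr 1
      apply Finset.sum_congr rfl
      intro i _
      rw [Derivation.leibniz, Derivation.map_algebraMap, hc i j0]
      simp only [smul_eq_mul, mul_zero, add_zero, map_mul, map_ofNat]
      ring)
    have h7 := congrFun h6 i0
    simp only [Pi.zero_apply, mul_eq_zero, OfNat.ofNat_ne_zero, false_or] at h7
    have h8 : q' i0 j0 = 1 := div_self h0
    rw [hc i0 j0, h7, map_zero] at h8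
    exact zero_ne_one h8

/-- Quadratic Kolchin–Ostrowski lemma. -/
lemma quad_indep
    (h1 : ∀ k, ∀ x ∈ K, D k x ∈ K)
    (h2 : ∀ x ∈ K, (∀ k, D k x = 0) → ∃ q : ℚ, x = algebraMap ℚ L q)
    {ι : Type*} [Fintype ι] (e : ι → L) (he : ∀ k i, D k (e i) ∈ K)
    (hI : ∀ c : ι → ℚ, ∀ f ∈ K, (∀ k, D k (∑ i, algebraMap ℚ L (c i) * e i + f) = 0) → c = 0)
    (q : ι → ι → L) (hq : ∀ i j, q i j ∈ K)
    (hrel : ∑ i, ∑ j, q i j * e i * e j = 0) : ∀ i j, q i j + q j i = 0 := by
  classical
  have hlin := Pool.Agent.FourExp.linindep_of_const K D h1 h2 e he (fun c hc =>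
    hI c (-∑ i, algebraMap ℚ L (c i) * e i) (K.neg_mem hc) (fun k => by
      rw [add_neg_cancel, map_zero]))
  apply quad_indep_symm K D h1 h2 e he hlin hI _ (fun i j => q i j + q j i) (fun _ => 0) 0
    (fun i j => K.add_mem (hq i j) (hq j i)) (fun _ => K.zero_mem) K.zero_mem
    (fun i j => add_comm _ _) le_rfl
  have e1 : ∑ i, ∑ j, (q i j + q j i) * e i * e j =
      ∑ i, ∑ j, q i j * e i * e j + ∑ i, ∑ j, q j i * e i * e j := by
    simp only [add_mul, Finset.sum_add_distrib]
  have e2 : ∑ i, ∑ j, q j i * e i * e j = ∑ i, ∑ j, q i j * e i * e j := by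
    rw [Finset.sum_comm]
    apply Finset.sum_congr rfl
    intro i _
    apply Finset.sum_congr rfl
    intro j _
    ring
  rw [e1, e2, hrel]
  simp

end Pool.Agent.FourExp.G
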