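import Mathlib
import Pool.Agent.FourExp.G.Diff

set_option autoImplicit false

namespace Pool.Agent.FourExp.G

variable {L : Type*} [Field L] [CharZero L] [Algebra ℚ L] (K : IntermediateField ℚ L)
variable {κ : Type*} (D : κ → Derivation ℚ L L)

/-- The differential-algebraic core: a vanishing determinant of linear forms in logarithms with
coefficients in `K` comes from a linear dependence over `K` of the rows or of the columns, once the
rational linear relations among the logarithms (encoded by the matrix `P`) are taken out. -/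
theorem diff_core_gen {ι : Type*} [Fintype ι]
    (h1 : ∀ k, ∀ x ∈ K, D k x ∈ K)
    (h2 : ∀ x ∈ K, (∀ k, D k x = 0) → ∃ q : ℚ, x = algebraMap ℚ L q)
    (w a : ι → L) (ha : ∀ i, a i ∈ K) (ha0 : ∀ i, a i ≠ 0)
    (hw : ∀ k i, D k (w i) * a i = D k (a i))
    (h4 : ∀ e ∈ K, ∀ u ∈ K, u ≠ 0 → (∀ k, D k u = u * D k e) → ∃ q : ℚ, e = algebraMap ℚ L q)
    (h5 : ∀ n : ι → ℤ, (∃ q : ℚ, ∏ i, a i ^ n i = algebraMap ℚ L q) →
      ∑ i, (n i : L) * w i = 0)
    (N : Fin 2 → Fin 2 → ι → L) (hN : ∀ i j k, N i j k ∈ K)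
    (h7 : (∑ k, N 0 0 k * w k) * (∑ k, N 1 1 k * w k) =
      (∑ k, N 0 1 k * w k) * (∑ k, N 1 0 k * w k)) :
    ∃ P : ι → ι → ℚ, (∀ k, w k = ∑ i, algebraMap ℚ L (P k i) * w i) ∧
      ∃ R ∈ K, ∃ S ∈ K, (R ≠ 0 ∨ S ≠ 0) ∧
        ((∀ j i, ∑ k, (R * N 0 j k + S * N 1 j k) * algebraMap ℚ L (P k i) = 0) ∨
         (∀ j i, ∑ k, (R * N j 0 k + S * N j 1 k) * algebraMap ℚ L (P k i) = 0)) := by
  classical
  -- scaling of rational combinations
  have scale : ∀ c : ι → ℚ, ∃ (M : ℕ) (n : ι → ℤ), (M : L) ≠ 0 ∧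
      ∑ i, (n i : L) * w i = (M : L) * ∑ i, algebraMap ℚ L (c i) * w i := by
    intro c
    obtain ⟨M, n, hM, hn⟩ := Pool.Agent.FourExp.exists_int_scale c
    refine ⟨M, n, by exact_mod_cast hM, ?_⟩
    rw [Finset.mul_sum]
    apply Finset.sum_congr rfl
    intro i _
    have : (n i : L) = algebraMap ℚ L ((M : ℚ) * c i) := by
      rw [← hn i]; simp
    rw [this]
    simp [mul_assoc]
  have hdw : ∀ k i, D k (w i) ∈ K := by
    intro k i
    have : D k (w i) = D k (a i) / a i := by
      rw [eq_div_iff (ha0 i)]; exact hw k i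
    rw [this]
    exact K.div_mem (h1 k _ (ha i)) (ha i)
  -- rational combinations which are constant modulo `K` vanish
  have hd : ∀ c : ι → ℚ, ∀ f ∈ K, (∀ k, D k (∑ i, algebraMap ℚ L (c i) * w i + f) = 0) →
      ∑ i, algebraMap ℚ L (c i) * w i = 0 := by
    intro c f hf hc
    obtain ⟨M, n, hM, hn⟩ := scale c
    have huK : ∏ i, a i ^ n i ∈ K := K.prod_mem (fun i _ => zpow_mem (ha i) _)
    have hu0 : ∏ i, a i ^ n i ≠ 0 :=
      Finset.prod_ne_zero_iff.mpr (fun i _ => zpow_ne_zero _ (ha0 i))
    have hMf : -((M : L) * f) ∈ K := K.neg_mem (K.mul_mem (by exact_mod_cast K.natCast_mem M) hf)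
    have hDu : ∀ k, D k (∏ i, a i ^ n i) = (∏ i, a i ^ n i) * D k (-((M : L) * f)) := by
      intro k
      rw [Pool.Agent.FourExp.deriv_prod_zpow Finset.univ (D k) a w ha0 (fun i => hw k i) n, hn]
      congr 1
      have h3 := hc k
      rw [map_add] at h3
      rw [map_neg, Derivation.leibniz, Derivation.leibniz]
      simp only [smul_eq_mul, Derivation.map_natCast, mul_zero, add_zero]
      linear_combination (M : L) * h3
    obtain ⟨q, hq⟩ := h4 _ hMf _ huK hu0 hDu
    have hu : ∀ k, D k (∏ i, a i ^ n i) = 0 := by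
      intro k
      rw [hDu k, hq, Derivation.map_algebraMap, mul_zero]
    have h' := h5 n (h2 _ huK hu)
    rw [hn] at h'
    exact (mul_eq_zero.mp h').resolve_left hM
  -- a `ℚ`-basis of the span of the `w i`
  let V : Submodule ℚ L := Submodule.span ℚ (Set.range w)
  have : FiniteDimensional ℚ V := FiniteDimensional.span_of_finite ℚ (Set.finite_range w)
  let b := Module.finBasis ℚ V
  set r := Module.finrank ℚ V with hr
  let e : Fin r → L := fun l => (b l : L)
  let c : ι → Fin r → ℚ := fun i l => b.repr ⟨w i, Submodule.subset_span ⟨i, rfl⟩⟩ l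
  have hwc : ∀ i, w i = ∑ l, algebraMap ℚ L (c i l) * e l := by
    intro i
    have h := b.sum_repr ⟨w i, Submodule.subset_span ⟨i, rfl⟩⟩
    have h' := congrArg (fun x : V => (x : L)) h
    simp only [Submodule.coe_sum, Submodule.coe_smul] at h'
    rw [← h']
    apply Finset.sum_congr rfl
    intro l _
    rw [Algebra.smul_def]
  have hew : ∀ l, ∃ g : ι → ℚ, e l = ∑ i, algebraMap ℚ L (g i) * w i := by
    intro l
    have hmem : e l ∈ Submodule.span ℚ (Set.range w) := (b l).2
    rw [Submodule.mem_span_range_iff_exists_fun] at hmem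
    obtain ⟨g, hg⟩ := hmem
    exact ⟨g, by rw [← hg]; apply Finset.sum_congr rfl; intro i _; rw [Algebra.smul_def]⟩
  choose g hg using hew
  have hcomb : ∀ f : Fin r → ℚ, ∑ l, algebraMap ℚ L (f l) * e l =
      ∑ i, algebraMap ℚ L (∑ l, f l * g l i) * w i := by
    intro f
    simp_rw [hg, Finset.mul_sum]
    rw [Finset.sum_comm]
    apply Finset.sum_congr rfl
    intro i _
    rw [map_sum, Finset.sum_mul]
    apply Finset.sum_congr rfl
    intro l _
    rw [map_mul]
    ring
  have hindep : ∀ f : Fin r → ℚ, ∑ l, algebraMap ℚ L (f l) * e l = 0 → f = 0 := by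
    intro f hf
    have h : ∑ l, f l • b l = 0 := by
      apply Subtype.ext
      simp only [Submodule.coe_sum, Submodule.coe_smul, ZeroMemClass.coe_zero]
      rw [← hf]
      apply Finset.sum_congr rfl
      intro l _
      rw [Algebra.smul_def]
    have := Fintype.linearIndependent_iff.mp b.linearIndependent f h
    exact funext this
  have hde : ∀ k l, D k (e l) ∈ K := by
    intro k l
    rw [hg l, map_sum]
    apply K.sum_mem
    intro i _
    rw [Derivation.leibniz]
    simp only [smul_eq_mul, Derivation.map_algebraMap, mul_zero, add_zero]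
    exact K.mul_mem (K.algebraMap_mem _) (hdw k i)
  have hI : ∀ f : Fin r → ℚ, ∀ x ∈ K,
      (∀ k, D k (∑ l, algebraMap ℚ L (f l) * e l + x) = 0) → f = 0 := by
    intro f x hx hDx
    apply hindep
    rw [hcomb f] at hDx ⊢
    exact hd _ x hx hDx
  -- coefficients with respect to the basis
  let M : Fin 2 → Fin 2 → Fin r → L := fun i j l => ∑ k, N i j k * algebraMap ℚ L (c k l)
  have hMK : ∀ i j l, M i j l ∈ K := fun i j l =>
    K.sum_mem (fun k _ => K.mul_mem (hN i j k) (K.algebraMap_mem _))
  have hNM : ∀ i j, ∑ k, N i j k * w k = ∑ l, M i j l * e l := by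
    intro i j
    simp only [M, Finset.sum_mul]
    rw [Finset.sum_comm]
    apply Finset.sum_congr rfl
    intro k _
    conv_lhs => rw [hwc k]
    rw [Finset.mul_sum]
    apply Finset.sum_congr rfl
    intro l _
    ring
  have hquad := quad_indep K D h1 h2 e hde hI
    (fun l m => M 0 0 l * M 1 1 m - M 0 1 l * M 1 0 m)
    (fun l m => K.sub_mem (K.mul_mem (hMK _ _ _) (hMK _ _ _)) (K.mul_mem (hMK _ _ _) (hMK _ _ _)))
    (by
      have e1 : ∑ l, ∑ m, (M 0 0 l * M 1 1 m - M 0 1 l * M 1 0 m) * e l * e m =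
          (∑ l, M 0 0 l * e l) * (∑ m, M 1 1 m * e m) -
          (∑ l, M 0 1 l * e l) * (∑ m, M 1 0 m * e m) := by
        rw [Finset.sum_mul_sum, Finset.sum_mul_sum, ← Finset.sum_sub_distrib]
        apply Finset.sum_congr rfl
        intro l _
        rw [← Finset.sum_sub_distrib]
        apply Finset.sum_congr rfl
        intro m _
        ring
      rw [e1, ← hNM, ← hNM, ← hNM, ← hNM, h7, sub_self])
  obtain ⟨R, S, hRS, hcase⟩ := forms_dichotomy (F := K)
    (fun l => ⟨M 0 0 l, hMK 0 0 l⟩) (fun l => ⟨M 0 1 l, hMK 0 1 l⟩)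
    (fun l => ⟨M 1 0 l, hMK 1 0 l⟩) (fun l => ⟨M 1 1 l, hMK 1 1 l⟩) (by
      intro l m
      apply Subtype.ext
      have h3 := hquad l m
      change M 1 1 l * M 0 0 m + M 0 0 l * M 1 1 m = M 1 0 l * M 0 1 m + M 0 1 l * M 1 0 m
      linear_combination h3)
  have hcase' : (∀ l j, (R : L) * M 0 j l + (S : L) * M 1 j l = 0) ∨
      (∀ l j, (R : L) * M j 0 l + (S : L) * M j 1 l = 0) := by
    rcases hcase with h | h
    · left
      intro l j
      have h3 := congrArg (Subtype.val) (h l).1
      have h4 := congrArg (Subtype.val) (h l).2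
      fin_cases j
      · exact h3
      · exact h4
    · right
      intro l j
      have h3 := congrArg (Subtype.val) (h l).1
      have h4 := congrArg (Subtype.val) (h l).2
      fin_cases j
      · exact h3
      · exact h4
  refine ⟨fun k i => ∑ l, c k l * g l i, ?_, R, R.2, S, S.2, ?_, ?_⟩
  · intro k
    rw [← hcomb (c k)]
    exact hwc k
  · rcases hRS with h | h
    · left
      intro h'
      exact h (Subtype.ext h')
    · right
      intro h'
      exact h (Subtype.ext h')
  · have tr : ∀ (F G : ι → L), (∀ l, (R : L) * (∑ k, F k * algebraMap ℚ L (c k l)) +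
        (S : L) * (∑ k, G k * algebraMap ℚ L (c k l)) = 0) →
        ∀ i, ∑ k, ((R : L) * F k + (S : L) * G k) *
          algebraMap ℚ L (∑ l, c k l * g l i) = 0 := by
      intro F G h i
      have e1 : ∑ k, ((R : L) * F k + (S : L) * G k) * algebraMap ℚ L (∑ l, c k l * g l i) =
          ∑ l, algebraMap ℚ L (g l i) * ((R : L) * (∑ k, F k * algebraMap ℚ L (c k l)) +
          (S : L) * (∑ k, G k * algebraMap ℚ L (c k l))) := by
        simp only [map_sum, map_mul, Finset.mul_sum, ← Finset.sum_add_distrib]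
        rw [Finset.sum_comm]
        apply Finset.sum_congr rfl
        intro l _
        apply Finset.sum_congr rfl
        intro k _
        ring
      rw [e1]
      apply Finset.sum_eq_zero
      intro l _
      rw [h l, mul_zero]
    rcases hcase' with h | h
    · left
      intro j i
      exact tr (N 0 j) (N 1 j) (fun l => h l j) i
    · right
      intro j i
      exact tr (N j 0) (N j 1) (fun l => h l j) i

end Pool.Agent.FourExp.G
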