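import Mathlib
import Pool.Agent.FourExp.Inj
import Pool.Agent.FourExp.PDeriv
import Pool.Agent.FourExp.KField
import Pool.Agent.FourExp.G.Core

set_option autoImplicit false

namespace Pool.Agent.FourExp.G

open MvPowerSeries Finsupp

attribute [-instance] DivisionRing.toRatAlgebra SubfieldClass.instSMulRat

variable {M : ℕ}

/-- The algebraic heart: a rigid prime ideal containing the determinant of linear forms in formal
logarithms contains a linear relation between rows or columns (modulo the rational relations among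
the logarithms). -/
theorem alg_main (q : Ideal (MvPowerSeries (Fin M) ℚ)) [hqp : q.IsPrime]
    (hq0 : ∀ f ∈ q, constantCoeff f = 0)
    (hrig : Rigid q)
    (hpt : ∀ Q : MvPolynomial (Fin M) ℚ, (Q : MvPowerSeries (Fin M) ℚ) ∉ q →
      ∃ e : MvPolynomial (Fin M) ℚ →ₐ[ℚ] ℚ,
        (∀ p : MvPolynomial (Fin M) ℚ, (p : MvPowerSeries (Fin M) ℚ) ∈ q → e p = 0) ∧ e Q ≠ 0)
    (w : Fin M → MvPowerSeries (Fin M) ℚ)
    (hw1 : ∀ i, (1 + X i) * pderiv ℚ i (w i) = 1)
    (hw2 : ∀ i j, j ≠ i → pderiv ℚ j (w i) = 0)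
    (h5 : ∀ (n n' : Fin M → ℕ) (c : ℚ),
      (∏ i, (1 + X i) ^ n i - C c * ∏ i, (1 + X i) ^ n' i : MvPowerSeries (Fin M) ℚ) ∈ q →
      ∑ i, ((n i : MvPowerSeries (Fin M) ℚ) - (n' i : MvPowerSeries (Fin M) ℚ)) * w i ∈ q)
    (N : Fin 2 → Fin 2 → Fin M → MvPolynomial (Fin M) ℚ)
    (h7 : (∑ k, (N 0 0 k : MvPowerSeries (Fin M) ℚ) * w k) *
        (∑ k, (N 1 1 k : MvPowerSeries (Fin M) ℚ) * w k) -
      (∑ k, (N 0 1 k : MvPowerSeries (Fin M) ℚ) * w k) *
        (∑ k, (N 1 0 k : MvPowerSeries (Fin M) ℚ) * w k) ∈ q) :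
    ∃ P : Fin M → Fin M → ℚ, (∀ k, w k - ∑ i, C (P k i) * w i ∈ q) ∧
      ∃ R S : MvPolynomial (Fin M) ℚ,
        ((R : MvPowerSeries (Fin M) ℚ) ∉ q ∨ (S : MvPowerSeries (Fin M) ℚ) ∉ q) ∧
        ((∀ j i, ((∑ k, (R * N 0 j k + S * N 1 j k) * MvPolynomial.C (P k i) :
            MvPolynomial (Fin M) ℚ) : MvPowerSeries (Fin M) ℚ) ∈ q) ∨
         (∀ j i, ((∑ k, (R * N j 0 k + S * N j 1 k) * MvPolynomial.C (P k i) :
            MvPolynomial (Fin M) ℚ) : MvPowerSeries (Fin M) ℚ) ∈ q)) := by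
  classical
  have hp1 : ∀ i, pderiv ℚ i (1 + X i : MvPowerSeries (Fin M) ℚ) = 1 := by
    intro i
    rw [map_add, pderiv_one, zero_add, pderiv_X_self]
  have hp2 : ∀ i j, j ≠ i → pderiv ℚ j (1 + X i : MvPowerSeries (Fin M) ℚ) = 0 := by
    intro i j hj
    rw [map_add, pderiv_one, zero_add, pderiv_X_of_ne hj.symm]
  let coe : MvPolynomial (Fin M) ℚ →+* MvPowerSeries (Fin M) ℚ :=
    MvPolynomial.coeToMvPowerSeries.ringHom
  let 𝔭 : Ideal (MvPolynomial (Fin M) ℚ) := q.comap coe
  have hmem𝔭 : ∀ p : MvPolynomial (Fin M) ℚ, p ∈ 𝔭 ↔ (p : MvPowerSeries (Fin M) ℚ) ∈ q :=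
    fun p => Iff.rfl
  have h𝔭 : 𝔭 ≠ ⊤ := Ideal.comap_ne_top _ hqp.ne_top
  obtain ⟨t, Y, hY0, hYi, hYF⟩ := exists_normalization 𝔭 h𝔭
  obtain ⟨n, hn⟩ := exists_pow_le q Y hYF
  let φ : MvPowerSeries (Fin t) ℚ →ₐ[ℚ] MvPowerSeries (Fin M) ℚ :=
    substAlgHom (R := ℚ) (hasSubst_of Y hY0)
  have hφX : ∀ j, φ (X j) = (Y j : MvPowerSeries (Fin M) ℚ) := fun j =>
    substAlgHom_X (hasSubst_of Y hY0) j
  have hφp : ∀ p : MvPolynomial (Fin t) ℚ, φ (p : MvPowerSeries (Fin t) ℚ) =
      ((MvPolynomial.aeval Y p : MvPolynomial (Fin M) ℚ) : MvPowerSeries (Fin M) ℚ) := by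
    intro p
    simp only [φ]
    rw [substAlgHom_coe]
    have : (MvPolynomial.aeval fun j => (Y j : MvPowerSeries (Fin M) ℚ)) =
        (MvPolynomial.coeToMvPowerSeries.algHom ℚ).comp (MvPolynomial.aeval Y) := by
      apply MvPolynomial.algHom_ext
      intro j
      simp
    rw [this]
    simp
  have hφ0 : ∀ j, constantCoeff (φ (X j)) = 0 := by
    intro j
    rw [hφX, ← coeff_zero_eq_constantCoeff_apply, MvPolynomial.coeff_coe]
    have := hY0 j
    rwa [MvPolynomial.constantCoeff_eq] at this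
  -- the quotient ring
  let algB : Algebra (MvPowerSeries (Fin t) ℚ) (MvPowerSeries (Fin M) ℚ ⧸ q) :=
    ((Ideal.Quotient.mk q).comp φ.toRingHom).toAlgebra
  have hvar : varI M ≠ ⊤ := by
    intro h
    have h1 : varI M ≤ RingHom.ker (constantCoeff : MvPowerSeries (Fin M) ℚ →+* ℚ) := by
      rw [Ideal.span_le]
      rintro _ ⟨i, rfl⟩
      simp
    rw [h] at h1
    have h2 := h1 (x := 1) trivial
    simp at h2
  have hgenB := exists_generation φ (MvPowerSeries (Fin M) ℚ ⧸ q) (fun s => rfl)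
    Ideal.Quotient.mk_surjective hφ0 n (by
      intro F hF
      have h1 := hn hF
      rw [Submodule.mem_sup] at h1
      obtain ⟨a, ha, b, hb, hab⟩ := h1
      rw [Ideal.mem_span_range_iff_exists_fun] at hb
      obtain ⟨c, hc⟩ := hb
      refine ⟨fun j => Ideal.Quotient.mk q (c j), ?_⟩
      rw [← hab, ← hc, map_add]
      have h2 : algebraMap (MvPowerSeries (Fin M) ℚ) (MvPowerSeries (Fin M) ℚ ⧸ q) a = 0 :=
        Ideal.Quotient.eq_zero_iff_mem.mpr ha
      rw [h2, zero_add, map_sum]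
      apply Finset.sum_congr rfl
      intro j _
      rw [map_mul, mul_comm, ← hφX]
      rfl)
    (IsHausdorff.of_isLocalRing _ _ hvar)
  have hfinB : Module.Finite (MvPowerSeries (Fin t) ℚ) (MvPowerSeries (Fin M) ℚ ⧸ q) := by
    constructor
    refine ⟨Finset.univ.image (fun x : expSet M n =>
      algebraMap (MvPowerSeries (Fin M) ℚ) (MvPowerSeries (Fin M) ℚ ⧸ q)
        (monomial (x : Fin M →₀ ℕ) (1:ℚ))), ?_⟩
    rw [eq_top_iff]
    intro y _
    obtain ⟨s, hs⟩ := hgenB y
    rw [hs]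
    apply Submodule.sum_mem
    intro x _
    rw [← Algebra.smul_def]
    apply Submodule.smul_mem
    apply Submodule.subset_span
    simp only [Finset.coe_image, Finset.coe_univ, Set.image_univ]
    exact ⟨x, rfl⟩
  have hdomS : IsDomain (MvPowerSeries (Fin t) ℚ) := NoZeroDivisors.to_isDomain _
  have hcharS : CharZero (MvPowerSeries (Fin t) ℚ) :=
    charZero_of_injective_algebraMap (algebraMap ℚ (MvPowerSeries (Fin t) ℚ)).injective
  have hinjB : Function.Injective
      (algebraMap (MvPowerSeries (Fin t) ℚ) (MvPowerSeries (Fin M) ℚ ⧸ q)) := by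
    rw [injective_iff_map_eq_zero]
    intro f hf
    apply subst_inj q hrig Y hY0 (fun p hp => hYi p hp) f
    exact Ideal.Quotient.eq_zero_iff_mem.mp hf
  -- the field
  let L := FractionRing (MvPowerSeries (Fin M) ℚ ⧸ q)
  let ι : MvPowerSeries (Fin M) ℚ →+* L := algebraMap (MvPowerSeries (Fin M) ℚ) L
  have hι : ∀ F, ι F = algebraMap (MvPowerSeries (Fin M) ℚ ⧸ q) L (Ideal.Quotient.mk q F) := by
    intro F
    exact IsScalarTower.algebraMap_apply (MvPowerSeries (Fin M) ℚ) (MvPowerSeries (Fin M) ℚ ⧸ q) L F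
  have hker : ∀ F, ι F = 0 ↔ F ∈ q := by
    intro F
    rw [hι, map_eq_zero_iff _ (IsFractionRing.injective _ _), Ideal.Quotient.eq_zero_iff_mem]
  have hιS : ∀ s : MvPowerSeries (Fin t) ℚ, algebraMap (MvPowerSeries (Fin t) ℚ) L s = ι (φ s) := by
    intro s
    rw [IsScalarTower.algebraMap_apply (MvPowerSeries (Fin t) ℚ) (MvPowerSeries (Fin M) ℚ ⧸ q) L,
      hι]
    rfl
  have hιC : ∀ r : ℚ, ι (C r) = algebraMap ℚ L r := by
    intro r
    rw [IsScalarTower.algebraMap_apply ℚ (MvPowerSeries (Fin M) ℚ) L,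
      MvPowerSeries.algebraMap_apply]
    simp [ι]
  have tow : IsScalarTower ℚ (MvPowerSeries (Fin t) ℚ) L :=
    IsScalarTower.of_algebraMap_eq (R := ℚ) (S := MvPowerSeries (Fin t) ℚ) (A := L) (fun r => by
      rw [hιS, φ.commutes, MvPowerSeries.algebraMap_apply, ← hιC]
      rfl)
  have hchar : CharZero L := by
    have : Function.Injective (algebraMap ℚ L) := (algebraMap ℚ L).injective
    exact charZero_of_injective_algebraMap this
  have hinjL : Function.Injective (algebraMap (MvPowerSeries (Fin t) ℚ) L) := by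
    rw [IsScalarTower.algebraMap_eq (MvPowerSeries (Fin t) ℚ) (MvPowerSeries (Fin M) ℚ ⧸ q) L]
    exact (IsFractionRing.injective (MvPowerSeries (Fin M) ℚ ⧸ q) L).comp hinjB
  have hfaith : FaithfulSMul (MvPowerSeries (Fin t) ℚ) L :=
    (faithfulSMul_iff_algebraMap_injective _ _).mpr hinjL
  have halgB : Algebra.IsAlgebraic (MvPowerSeries (Fin t) ℚ) (MvPowerSeries (Fin M) ℚ ⧸ q) := by
    have : FaithfulSMul (MvPowerSeries (Fin t) ℚ) (MvPowerSeries (Fin M) ℚ ⧸ q) :=
      (faithfulSMul_iff_algebraMap_injective _ _).mpr hinjB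
    infer_instance
  have halg : Algebra.IsAlgebraic (MvPowerSeries (Fin t) ℚ) L := by
    have : Module.IsTorsionFree (MvPowerSeries (Fin t) ℚ) L := inferInstance
    exact (IsFractionRing.isAlgebraic_iff' (MvPowerSeries (Fin t) ℚ)
      (MvPowerSeries (Fin M) ℚ ⧸ q) L).mp halgB
  -- the derivations
  have hD' : ∀ k : Fin t, ∃ δ : Derivation ℚ L L, ∀ s : MvPowerSeries (Fin t) ℚ,
      δ (ι (φ s)) = ι (φ (pderiv ℚ k s)) := by
    intro k
    obtain ⟨δ, hδ⟩ := exists_deriv_ext (MvPowerSeries (Fin t) ℚ) L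
      ((Algebra.linearMap (MvPowerSeries (Fin t) ℚ) L).compDer (pderiv ℚ k))
    refine ⟨δ, fun s => ?_⟩
    rw [← hιS, hδ, ← hιS]
    rfl
  choose D hD using hD'
  have hgenL : ∀ F : MvPowerSeries (Fin M) ℚ, ∃ s : expSet M n → MvPowerSeries (Fin t) ℚ,
      ι F = ∑ x : expSet M n, ι (φ (s x)) * ι (monomial (x : Fin M →₀ ℕ) (1:ℚ)) := by
    intro F
    obtain ⟨s, hs⟩ := hgenB (Ideal.Quotient.mk q F)
    refine ⟨s, ?_⟩
    rw [hι, hs, map_sum]
    apply Finset.sum_congr rfl
    intro x _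
    rw [map_mul, hι, hι]
    rfl
  have hform : ∀ k (F : MvPowerSeries (Fin M) ℚ), D k (ι F) =
      ∑ i, ι (pderiv ℚ i F) * D k (ι (X i)) := fun k F =>
    pderiv_formula (D k) φ (pderiv ℚ k) (hD k) hgenL F
  -- the small field
  let z : Fin M → L := fun i => ι (X i)
  have hz : ∀ p : MvPolynomial (Fin M) ℚ,
      MvPolynomial.aeval z p = ι (p : MvPowerSeries (Fin M) ℚ) := by
    intro p
    induction p using MvPolynomial.induction_on with
    | C r => rw [MvPolynomial.aeval_C, MvPolynomial.coe_C, hιC]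
    | add p q hp hq => rw [map_add, hp, hq, MvPolynomial.coe_add, map_add]
    | mul_X p i hp =>
      rw [map_mul, hp, MvPolynomial.aeval_X, MvPolynomial.coe_mul, map_mul, MvPolynomial.coe_X]
  have hpt' : ∀ Q : MvPolynomial (Fin M) ℚ, MvPolynomial.aeval z Q ≠ 0 →
      ∃ e : MvPolynomial (Fin M) ℚ →ₐ[ℚ] ℚ,
        (∀ p : MvPolynomial (Fin M) ℚ, MvPolynomial.aeval z p = 0 → e p = 0) ∧ e Q ≠ 0 := by
    intro Q hQ
    rw [hz, Ne, hker] at hQ
    obtain ⟨e, he1, he2⟩ := hpt Q hQ
    refine ⟨e, fun p hp => he1 p ?_, he2⟩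
    rw [hz, hker] at hp
    exact hp
  have hYi' : ∀ p : MvPolynomial (Fin t) ℚ,
      MvPolynomial.aeval z (MvPolynomial.aeval Y p) = 0 → p = 0 := by
    intro p hp
    rw [hz, hker] at hp
    exact hYi p hp
  have hYF' : ∀ i, ∃ F : Polynomial (MvPolynomial (Fin t) ℚ), F.Monic ∧
      Polynomial.eval₂ ((MvPolynomial.aeval z : MvPolynomial (Fin M) ℚ →ₐ[ℚ] L).comp
      (MvPolynomial.aeval Y : MvPolynomial (Fin t) ℚ →ₐ[ℚ] _)).toRingHom (z i) F = 0 := by
    intro i
    obtain ⟨F, hF, hF0⟩ := hYF i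
    refine ⟨F, hF, ?_⟩
    have h1 : MvPolynomial.aeval z (Polynomial.eval₂ (MvPolynomial.aeval Y :
        MvPolynomial (Fin t) ℚ →ₐ[ℚ] _).toRingHom (MvPolynomial.X i) F) = 0 := by
      rw [hz, hker]
      exact hF0
    have h2 : z i = (MvPolynomial.aeval z : MvPolynomial (Fin M) ℚ →ₐ[ℚ] L).toRingHom
      (MvPolynomial.X i) := by simp
    have h3 : ((MvPolynomial.aeval z : MvPolynomial (Fin M) ℚ →ₐ[ℚ] L).comp
      (MvPolynomial.aeval Y : MvPolynomial (Fin t) ℚ →ₐ[ℚ] _)).toRingHom =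
      (MvPolynomial.aeval z : MvPolynomial (Fin M) ℚ →ₐ[ℚ] L).toRingHom.comp
        (MvPolynomial.aeval Y : MvPolynomial (Fin t) ℚ →ₐ[ℚ] _).toRingHom := rfl
    rw [h2, h3, ← Polynomial.hom_eval₂]
    exact h1
  have hDp : ∀ k (p : MvPolynomial (Fin t) ℚ),
      D k (MvPolynomial.aeval z (MvPolynomial.aeval Y p)) =
      MvPolynomial.aeval z (MvPolynomial.aeval Y (MvPolynomial.pderiv k p)) := by
    intro k p
    rw [hz, hz, ← hφp, hD, ← hφp, pderiv_coe]
  obtain ⟨hK1, hK2⟩ := exists_field_derivs z Y hYi' hYF' D hDp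
  set K := IntermediateField.adjoin ℚ (Set.range z) with hKdef
  have hzK : ∀ i, z i ∈ K := fun i => IntermediateField.subset_adjoin _ _ (Set.mem_range_self i)
  have hrat : ∀ x ∈ K, IsAlgebraic ℚ x → ∃ r : ℚ, x = algebraMap ℚ L r := fun x hx hxa =>
    rational_of_algebraic z hpt' x hx hxa
  have hzp : ∀ p : MvPolynomial (Fin M) ℚ, MvPolynomial.aeval z p ∈ K := by
    intro p
    induction p using MvPolynomial.induction_on with
    | C r => rw [MvPolynomial.aeval_C]; exact K.algebraMap_mem r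
    | add p q hp hq => rw [map_add]; exact K.add_mem hp hq
    | mul_X p i hp => rw [map_mul, MvPolynomial.aeval_X]; exact K.mul_mem hp (hzK i)
  have hN : ∀ i j k, MvPolynomial.aeval z (N i j k) ∈ K := fun i j k => hzp _
  have hunit : ∀ i, ι (1 + X i) ≠ 0 := by
    intro i h
    rw [hker] at h
    have := hq0 _ h
    simp at this
  have hcore := diff_core_gen K D hK1 (by
      intro x hx hDx
      apply hrat x hx
      by_contra htr
      have htr' : Transcendental ℚ (⟨x, hx⟩ : K) := by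
        intro h
        exact htr (h.algebraMap (A := L))
      obtain ⟨δ, hδ⟩ := exists_deriv_ne_zero (⟨x, hx⟩ : K) htr'
      apply hδ
      obtain ⟨c, hc⟩ := hK2 δ
      apply Subtype.ext
      rw [hc]
      simp only [hDx, mul_zero, Finset.sum_const_zero]
      rfl)
    (fun i => ι (w i)) (fun i => ι (1 + X i)) (by
      intro i
      change ι (1 + X i) ∈ K
      rw [map_add, map_one]
      exact K.add_mem K.one_mem (hzK i)) hunit (by
      intro k i
      change D k (ι (w i)) * ι (1 + X i) = D k (ι (1 + X i))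
      rw [hform k (w i), hform k (1 + X i), Finset.sum_eq_single i, Finset.sum_eq_single i]
      · rw [hp1, map_one, one_mul]
        have := congrArg ι (hw1 i)
        rw [map_mul, map_one] at this
        calc ι (pderiv ℚ i (w i)) * D k (ι (X i)) * ι (1 + X i) =
          (ι (1 + X i) * ι (pderiv ℚ i (w i))) * D k (ι (X i)) := by ring
          _ = _ := by rw [this, one_mul]
      · intro j _ hj
        rw [hp2 i j hj, map_zero, zero_mul]
      · intro h; exact absurd (Finset.mem_univ _) h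
      · intro j _ hj
        rw [hw2 i j hj, map_zero, zero_mul]
      · intro h; exact absurd (Finset.mem_univ _) h) (by
      intro e he u hu hu0 hDu
      apply hrat e he
      have h1 : IsAlgebraic ℚ (⟨e, he⟩ : K) := by
        have : CharZero K := charZero_of_injective_algebraMap (algebraMap ℚ K).injective
        apply isAlgebraic_of_deriv_eq (⟨e, he⟩ : K) (⟨u, hu⟩ : K)
        · intro h
          exact hu0 (congrArg Subtype.val h)
        · intro δ
          obtain ⟨c, hc⟩ := hK2 δ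
          apply Subtype.ext
          have h2 := hc ⟨u, hu⟩
          have h3 := hc ⟨e, he⟩
          change ((δ ⟨u, hu⟩ : K) : L) = u * ((δ ⟨e, he⟩ : K) : L)
          rw [h2, h3, Finset.mul_sum]
          apply Finset.sum_congr rfl
          intro k _
          change c k * D k u = u * (c k * D k e)
          rw [hDu k]
          ring
      exact h1.algebraMap (A := L)) (by
      rintro nn ⟨r, hr⟩
      have hsplit : ∀ i, nn i = ((nn i).toNat : ℤ) - ((-nn i).toNat : ℤ) := by
        intro i; omega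
      have h1 := h5 (fun i => (nn i).toNat) (fun i => (-nn i).toNat) r (by
        rw [← hker, map_sub, map_mul, map_prod, map_prod, hιC, sub_eq_zero, ← hr]
        rw [← Finset.prod_mul_distrib]
        apply Finset.prod_congr rfl
        intro i _
        rw [map_pow, map_pow]
        have h2 : (ι (1 + X i)) ^ nn i = (ι (1 + X i)) ^ ((nn i).toNat : ℤ) /
            (ι (1 + X i)) ^ ((-nn i).toNat : ℤ) := by
          rw [← zpow_sub₀ (hunit i), ← hsplit]
        rw [h2, zpow_natCast, zpow_natCast, div_mul_cancel₀ _ (pow_ne_zero _ (hunit i))])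
      rw [← hker, map_sum] at h1
      rw [← h1]
      apply Finset.sum_congr rfl
      intro i _
      rw [map_mul, map_sub, map_natCast, map_natCast]
      congr 1
      conv_lhs => rw [hsplit i]
      push_cast
      rfl) (fun i j k => MvPolynomial.aeval z (N i j k)) hN (by
      have h := (hker _).mpr h7
      rw [map_sub, map_mul, map_mul, sub_eq_zero] at h
      simp only [map_sum, map_mul, ← hz] at h
      exact h)
  obtain ⟨P, hP, R, hR, S, hS, hRS, hor⟩ := hcore
  have hfrac : ∀ x ∈ K, ∃ a b : MvPolynomial (Fin M) ℚ, MvPolynomial.aeval z b ≠ 0 ∧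
      x * MvPolynomial.aeval z b = MvPolynomial.aeval z a := by
    intro x hx
    rw [hKdef, IntermediateField.mem_adjoin_range_iff] at hx
    obtain ⟨a, b, hab⟩ := hx
    by_cases hb : MvPolynomial.aeval z b = 0
    · refine ⟨0, 1, by simp, ?_⟩
      rw [hab, hb]
      simp
    · refine ⟨a, b, hb, ?_⟩
      rw [hab, div_mul_cancel₀ _ hb]
  obtain ⟨a1, b1, hb1, hab1⟩ := hfrac R hR
  obtain ⟨a2, b2, hb2, hab2⟩ := hfrac S hS
  refine ⟨P, ?_, a1 * b2, a2 * b1, ?_, ?_⟩
  · intro k
    rw [← hker, map_sub, map_sum, sub_eq_zero]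
    refine (hP k).trans ?_
    apply Finset.sum_congr rfl
    intro i _
    rw [map_mul, hιC]
  · rw [← hker, ← hker, ← hz, ← hz, map_mul, map_mul, ← hab1, ← hab2]
    rcases hRS with h | h
    · exact Or.inl (mul_ne_zero (mul_ne_zero h hb1) hb2)
    · exact Or.inr (mul_ne_zero (mul_ne_zero h hb2) hb1)
  · have key : ∀ (n1 n2 : Fin M → MvPolynomial (Fin M) ℚ) (i : Fin M),
        ∑ k, (R * MvPolynomial.aeval z (n1 k) + S * MvPolynomial.aeval z (n2 k)) *
          algebraMap ℚ L (P k i) = 0 →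
        ((∑ k, (a1 * b2 * n1 k + a2 * b1 * n2 k) * MvPolynomial.C (P k i) :
            MvPolynomial (Fin M) ℚ) : MvPowerSeries (Fin M) ℚ) ∈ q := by
      intro n1 n2 i h
      rw [← hker, ← hz, map_sum]
      have : ∑ k, MvPolynomial.aeval z ((a1 * b2 * n1 k + a2 * b1 * n2 k) *
          MvPolynomial.C (P k i)) = (MvPolynomial.aeval z b1 * MvPolynomial.aeval z b2) *
          ∑ k, (R * MvPolynomial.aeval z (n1 k) + S * MvPolynomial.aeval z (n2 k)) *
          algebraMap ℚ L (P k i) := by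
        rw [Finset.mul_sum]
        apply Finset.sum_congr rfl
        intro k _
        rw [map_mul, map_add, map_mul, map_mul, map_mul, map_mul, MvPolynomial.aeval_C,
          ← hab1, ← hab2]
        ring
      rw [this, h, mul_zero]
    rcases hor with h | h
    · exact Or.inl (fun j i => key _ _ i (h j i))
    · exact Or.inr (fun j i => key _ _ i (h j i))

end Pool.Agent.FourExp.G
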