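import Mathlib
import Pool.Agent.FourExp.G.AlgMain
import Pool.Agent.FourExp.G.Logs

set_option autoImplicit false

namespace Pool.Agent.FourExp.G

open MvPowerSeries Finsupp Filter Topology

variable {m : ℕ}

namespace Pts

variable (P : Pts m)

/-- Rational version of `log_comb_zero`. -/
lemma log_comb_zero_rat (c : Fin m → ℚ)
    (h : ∑ i, C (c i) * lw i ∈ P.q) :
    ∀ᶠ n in U, ∑ i, (c i : ℝ) * Real.log (1 + (P.z n i : ℝ)) = 0 := by
  obtain ⟨T, e, hT, he⟩ := Pool.Agent.FourExp.exists_int_scale c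
  have h1 := Ideal.mul_mem_left P.q (C (T : ℚ)) h
  have h2 : C (T : ℚ) * ∑ i, C (c i) * lw i =
      ∑ i, (e i : MvPowerSeries (Fin m) ℚ) * lw i := by
    rw [Finset.mul_sum]
    apply Finset.sum_congr rfl
    intro i _
    rw [← mul_assoc, ← map_mul, ← he i, map_intCast]
  rw [h2] at h1
  filter_upwards [P.log_comb_zero e h1] with n hn
  have h3 : ∑ i, (e i : ℝ) * Real.log (1 + (P.z n i : ℝ)) =
      T * ∑ i, (c i : ℝ) * Real.log (1 + (P.z n i : ℝ)) := by
    rw [Finset.mul_sum]
    apply Finset.sum_congr rfl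
    intro i _
    have h4 : (e i : ℝ) = (T : ℝ) * (c i : ℝ) := by exact_mod_cast congrArg (Rat.cast (K := ℝ)) (he i)
    rw [h4, mul_assoc]
  rw [h3] at hn
  exact (mul_eq_zero.mp hn).resolve_left (by exact_mod_cast hT)

/-- A linear form in logarithms with polynomial coefficients, at the points of the system. -/
noncomputable def lf (N : Fin m → MvPolynomial (Fin m) ℚ) (n : ℕ) : ℝ :=
  ∑ k, ev (P.z n) (N k) * Real.log (1 + (P.z n k : ℝ))

lemma rep_lf (N : Fin m → MvPolynomial (Fin m) ℚ) :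
    P.Rep (∑ k, (N k : MvPowerSeries (Fin m) ℚ) * lw k) (P.lf N) := by
  have := Rep.sum (P := P) Finset.univ (f := fun k => (N k : MvPowerSeries (Fin m) ℚ) * lw k)
    (F := fun k n => ev (P.z n) (N k) * Real.log (1 + (P.z n k : ℝ)))
    (fun k _ => (P.rep_poly (N k)).mul (P.rep_lw k))
  exact this

/-- If a determinant of linear forms in logarithms with polynomial coefficients is infinitely
small along a system of points then its rows or columns are dependent at some point. -/
theorem pts_main (N : Fin 2 → Fin 2 → Fin m → MvPolynomial (Fin m) ℚ)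
    (hsmall : ∀ T : ℕ, ∀ᶠ n in U,
      |P.lf (N 0 0) n * P.lf (N 1 1) n - P.lf (N 0 1) n * P.lf (N 1 0) n| ≤ P.ε n ^ T) :
    ∃ n, ∃ R S : ℚ, (R ≠ 0 ∨ S ≠ 0) ∧
      ((∀ j, R * P.lf (N 0 j) n + S * P.lf (N 1 j) n = 0) ∨
       (∀ j, R * P.lf (N j 0) n + S * P.lf (N j 1) n = 0)) := by
  have hpr := P.q_isPrime
  obtain ⟨Q, hQ, R, S, hRS, hor⟩ := alg_main P.q
    (fun f hf => P.constantCoeff_eq_zero_of_small hf) P.rigid_q P.exists_point
    lw hw1_lw pderiv_lw_ne P.h5_lw N (by
      have hrep := ((P.rep_lf (N 0 0)).mul (P.rep_lf (N 1 1))).sub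
        ((P.rep_lf (N 0 1)).mul (P.rep_lf (N 1 0)))
      rw [hrep.mem_iff]
      intro T
      refine ⟨1, zero_le_one, ?_⟩
      filter_upwards [hsmall T] with n hn
      rw [one_mul]
      exact hn)
  have hlogs : ∀ k, ∀ᶠ n in U, Real.log (1 + (P.z n k : ℝ)) =
      ∑ i, (Q k i : ℝ) * Real.log (1 + (P.z n i : ℝ)) := by
    intro k
    have h1 := P.log_comb_zero_rat (fun i => (if i = k then 1 else 0) - Q k i) (by
      have h2 : ∑ i, C ((if i = k then (1:ℚ) else 0) - Q k i) * (lw i : MvPowerSeries (Fin m) ℚ) =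
          lw k - ∑ i, C (Q k i) * lw i := by
        simp only [map_sub, sub_mul, Finset.sum_sub_distrib]
        congr 1
        rw [Finset.sum_eq_single k]
        · rw [if_pos rfl, map_one, one_mul]
        · intro i _ hi
          rw [if_neg hi, map_zero, zero_mul]
        · intro h; exact absurd (Finset.mem_univ _) h
      rw [h2]
      exact hQ k)
    filter_upwards [h1] with n hn
    have h3 : ∑ i, (((if i = k then (1:ℚ) else 0) - Q k i : ℚ) : ℝ) *
        Real.log (1 + (P.z n i : ℝ)) = Real.log (1 + (P.z n k : ℝ)) -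
        ∑ i, (Q k i : ℝ) * Real.log (1 + (P.z n i : ℝ)) := by
      push_cast
      simp only [sub_mul, Finset.sum_sub_distrib]
      congr 1
      rw [Finset.sum_eq_single k]
      · simp
      · intro i _ hi
        simp [hi]
      · intro h; exact absurd (Finset.mem_univ _) h
    rw [h3] at hn
    exact sub_eq_zero.mp hn
  have hRS' : ∀ᶠ n in U, MvPolynomial.eval (P.z n) R ≠ 0 ∨ MvPolynomial.eval (P.z n) S ≠ 0 := by
    have hne : ∀ F : MvPolynomial (Fin m) ℚ, (F : MvPowerSeries (Fin m) ℚ) ∉ P.q →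
        ∀ᶠ n in U, MvPolynomial.eval (P.z n) F ≠ 0 := by
      intro F hF
      rw [poly_mem_iff] at hF
      have hF' : ∀ᶠ n in U, ¬ ev (P.z n) F = 0 := by
        simp only [U] at hF ⊢
        exact Ultrafilter.eventually_not.mpr hF
      filter_upwards [hF'] with n hn h
      apply hn
      rw [ev, h, Rat.cast_zero]
    rcases hRS with h | h
    · filter_upwards [hne R h] with n hn
      exact Or.inl hn
    · filter_upwards [hne S h] with n hn
      exact Or.inr hn
  have key : ∀ (n1 n2 : Fin m → MvPolynomial (Fin m) ℚ),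
      (∀ i, ((∑ k, (R * n1 k + S * n2 k) * MvPolynomial.C (Q k i) :
        MvPolynomial (Fin m) ℚ) : MvPowerSeries (Fin m) ℚ) ∈ P.q) →
      ∀ᶠ n in U, (MvPolynomial.eval (P.z n) R : ℝ) * P.lf n1 n +
        (MvPolynomial.eval (P.z n) S : ℝ) * P.lf n2 n = 0 := by
    intro n1 n2 h
    have h1 : ∀ᶠ n in U, ∀ i, ev (P.z n) (∑ k, (R * n1 k + S * n2 k) * MvPolynomial.C (Q k i)) = 0 := by
      rw [Filter.eventually_all]
      intro i
      exact (P.poly_mem_iff _).mp (h i)
    have h2 : ∀ᶠ n in U, ∀ k, Real.log (1 + (P.z n k : ℝ)) =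
        ∑ i, (Q k i : ℝ) * Real.log (1 + (P.z n i : ℝ)) := by
      rw [Filter.eventually_all]
      exact hlogs
    filter_upwards [h1, h2] with n h1 h2
    have h3 : (MvPolynomial.eval (P.z n) R : ℝ) * P.lf n1 n +
        (MvPolynomial.eval (P.z n) S : ℝ) * P.lf n2 n =
        ∑ k, (ev (P.z n) R * ev (P.z n) (n1 k) + ev (P.z n) S * ev (P.z n) (n2 k)) *
          Real.log (1 + (P.z n k : ℝ)) := by
      simp only [lf, Finset.mul_sum, ← Finset.sum_add_distrib]
      apply Finset.sum_congr rfl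
      intro k _
      simp only [ev]
      ring
    rw [h3]
    have h4 : ∑ k, (ev (P.z n) R * ev (P.z n) (n1 k) + ev (P.z n) S * ev (P.z n) (n2 k)) *
          Real.log (1 + (P.z n k : ℝ)) =
        ∑ k, ∑ i, (ev (P.z n) R * ev (P.z n) (n1 k) + ev (P.z n) S * ev (P.z n) (n2 k)) *
          ((Q k i : ℝ) * Real.log (1 + (P.z n i : ℝ))) := by
      apply Finset.sum_congr rfl
      intro k _
      conv_lhs => rw [h2 k]
      rw [Finset.mul_sum]
    rw [h4, Finset.sum_comm]
    apply Finset.sum_eq_zero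
    intro i _
    have h5 := h1 i
    have h6 : ∑ k, (ev (P.z n) R * ev (P.z n) (n1 k) + ev (P.z n) S * ev (P.z n) (n2 k)) *
          ((Q k i : ℝ) * Real.log (1 + (P.z n i : ℝ))) =
        ev (P.z n) (∑ k, (R * n1 k + S * n2 k) * MvPolynomial.C (Q k i)) *
          Real.log (1 + (P.z n i : ℝ)) := by
      simp only [ev, map_sum, map_mul, map_add, MvPolynomial.eval_C]
      push_cast
      rw [Finset.sum_mul]
      apply Finset.sum_congr rfl
      intro k _
      ring
    rw [h6, h5, zero_mul]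
  rcases hor with h | h
  · have h1 : ∀ᶠ n in U, ∀ j, (MvPolynomial.eval (P.z n) R : ℝ) * P.lf (N 0 j) n +
        (MvPolynomial.eval (P.z n) S : ℝ) * P.lf (N 1 j) n = 0 := by
      rw [Filter.eventually_all]
      intro j
      exact key _ _ (fun i => h j i)
    obtain ⟨n, hn1, hn2⟩ := (hRS'.and h1).exists
    exact ⟨n, _, _, hn1, Or.inl hn2⟩
  · have h1 : ∀ᶠ n in U, ∀ j, (MvPolynomial.eval (P.z n) R : ℝ) * P.lf (N j 0) n +
        (MvPolynomial.eval (P.z n) S : ℝ) * P.lf (N j 1) n = 0 := by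
      rw [Filter.eventually_all]
      intro j
      exact key _ _ (fun i => h j i)
    obtain ⟨n, hn1, hn2⟩ := (hRS'.and h1).exists
    exact ⟨n, _, _, hn1, Or.inr hn2⟩

end Pts

end Pool.Agent.FourExp.G
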