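import Mathlib
import Pool.Agent.FourExp.G.AlgPoly
import Pool.Agent.FourExp.G.Main

set_option autoImplicit false

namespace Pool.Agent.FourExp.G

open Finsupp Filter Topology

variable {m : ℕ}

/-- evaluation at a rational point as a ring homomorphism to the reals -/
noncomputable def evR (z : Fin m → ℚ) : MvPolynomial (Fin m) ℚ →+* ℝ :=
  (algebraMap ℚ ℝ).comp (MvPolynomial.eval z)

lemma evR_eq (z : Fin m → ℚ) (p : MvPolynomial (Fin m) ℚ) : evR z p = ev z p := rfl

namespace Pts

variable (P : Pts m)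

lemma rep_eval₂ (G : MvPolynomial (Fin m) (MvPolynomial (Fin m) ℚ)) :
    P.Rep (MvPolynomial.eval₂ (MvPolynomial.coeToMvPowerSeries.ringHom) lw G)
      (fun n => MvPolynomial.eval₂ (evR (P.z n)) (fun i => Real.log (1 + (P.z n i : ℝ))) G) := by
  induction G using MvPolynomial.induction_on with
  | C a =>
    simp only [MvPolynomial.eval₂_C]
    exact P.rep_poly a
  | add p q hp hq =>
    simp only [MvPolynomial.eval₂_add]
    exact hp.add hq
  | mul_X p i hp =>
    simp only [MvPolynomial.eval₂_mul, MvPolynomial.eval₂_X]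
    exact hp.mul (P.rep_lw i)

/-- If a polynomial in logarithms with polynomial coefficients is infinitely small along a system
of points then, at some point, the relation is a consequence of the rational linear relations
among the logarithms. -/
theorem pts_poly (G : MvPolynomial (Fin m) (MvPolynomial (Fin m) ℚ))
    (hsmall : ∀ T : ℕ, ∀ᶠ n in U,
      |MvPolynomial.eval₂ (evR (P.z n)) (fun i => Real.log (1 + (P.z n i : ℝ))) G| ≤ P.ε n ^ T) :
    ∀ᶠ n in U, ∃ Q : Fin m → Fin m → ℚ,
      (∀ k, Real.log (1 + (P.z n k : ℝ)) = ∑ i, (Q k i : ℝ) * Real.log (1 + (P.z n i : ℝ))) ∧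
      ∀ x : Fin m → ℝ, (∀ k, x k = ∑ i, (Q k i : ℝ) * x i) →
        MvPolynomial.eval₂ (evR (P.z n)) x G = 0 := by
  have hpr := P.q_isPrime
  obtain ⟨Q, hQ, hG⟩ := alg_main_poly P.q
    (fun f hf => P.constantCoeff_eq_zero_of_small hf) P.rigid_q P.exists_point
    lw hw1_lw pderiv_lw_ne P.h5_lw G (by
      have hrep := P.rep_eval₂ G
      rw [hrep.mem_iff]
      intro T
      refine ⟨1, zero_le_one, ?_⟩
      filter_upwards [hsmall T] with n hn
      rw [one_mul]
      exact hn)
  have hlogs : ∀ k, ∀ᶠ n in U, Real.log (1 + (P.z n k : ℝ)) =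
      ∑ i, (Q k i : ℝ) * Real.log (1 + (P.z n i : ℝ)) := by
    intro k
    have h1 := P.log_comb_zero_rat (fun i => (if i = k then 1 else 0) - Q k i) (by
      have h2 : ∑ i, MvPowerSeries.C ((if i = k then (1:ℚ) else 0) - Q k i) *
            (lw i : MvPowerSeries (Fin m) ℚ) =
          lw k - ∑ i, MvPowerSeries.C (Q k i) * lw i := by
        simp only [map_sub, sub_mul, Finset.sum_sub_distrib]
        congr 1
        rw [Finset.sum_eq_single k]
        · rw [if_pos rfl, map_one, one_mul]
        · intro i _ hi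
          rw [if_neg hi, map_zero, zero_mul]
        · intro h; exact absurd (Finset.mem_univ _) h
      rw [h2]
      exact hQ k)
    filter_upwards [h1] with n hn
    have h3 : ∑ i, (((if i = k then (1:ℚ) else 0) - Q k i : ℚ) : ℝ) *
        Real.log (1 + (P.z n i : ℝ)) = Real.log (1 + (P.z n k : ℝ)) -
        ∑ i, (Q k i : ℝ) * Real.log (1 + (P.z n i : ℝ)) := by
      push_cast
      simp only [sub_mul, Finset.sum_sub_distrib]
      congr 1
      rw [Finset.sum_eq_single k]
      · simp
      · intro i _ hi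
        simp [hi]
      · intro h; exact absurd (Finset.mem_univ _) h
    rw [h3] at hn
    exact sub_eq_zero.mp hn
  have h1 : ∀ᶠ n in U, ∀ k, Real.log (1 + (P.z n k : ℝ)) =
      ∑ i, (Q k i : ℝ) * Real.log (1 + (P.z n i : ℝ)) := by
    rw [Filter.eventually_all]
    exact hlogs
  set G' := MvPolynomial.bind₁
    (fun k => ∑ i, MvPolynomial.C (MvPolynomial.C (Q k i)) * MvPolynomial.X i) G with hG'
  have h2 : ∀ᶠ n in U, ∀ x ∈ G'.support, ev (P.z n) (MvPolynomial.coeff x G') = 0 := by
    rw [Filter.eventually_all_finset]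
    intro x _
    exact (P.poly_mem_iff _).mp (hG x)
  filter_upwards [h1, h2] with n h1 h2
  refine ⟨Q, h1, fun x hx => ?_⟩
  have h3 : MvPolynomial.eval₂ (evR (P.z n)) x G' = MvPolynomial.eval₂ (evR (P.z n)) x G := by
    rw [hG']
    have h4 := MvPolynomial.eval₂Hom_bind₁ (evR (P.z n)) x
      (fun k => ∑ i, MvPolynomial.C (MvPolynomial.C (Q k i)) * MvPolynomial.X i) G
    rw [MvPolynomial.coe_eval₂Hom] at h4
    rw [h4]
    have h5 : (fun i => (MvPolynomial.eval₂Hom (evR (P.z n)) x)
        (∑ j, MvPolynomial.C (MvPolynomial.C (Q i j)) * MvPolynomial.X j)) = x := by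
      funext k
      rw [map_sum]
      conv_rhs => rw [hx k]
      apply Finset.sum_congr rfl
      intro i _
      rw [map_mul, MvPolynomial.coe_eval₂Hom, MvPolynomial.eval₂_C, MvPolynomial.eval₂_X]
      congr 1
      rw [evR_eq, ev, MvPolynomial.eval_C]
    simp only [MvPolynomial.coe_eval₂Hom] at h5 ⊢
    rw [h5]
  rw [← h3, MvPolynomial.eval₂_eq']
  apply Finset.sum_eq_zero
  intro y hy
  rw [evR_eq, h2 y hy, zero_mul]

end Pts

/-- a bounded exponent vector as a finitely supported function -/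
noncomputable def toFs {r d : ℕ} (γ : Fin r → Fin (d + 1)) : Fin r →₀ ℕ :=
  Finsupp.equivFunOnFinite.symm (fun k => (γ k : ℕ))

lemma toFs_apply {r d : ℕ} (γ : Fin r → Fin (d + 1)) (k : Fin r) : toFs γ k = (γ k : ℕ) := rfl

lemma toFs_injective {r d : ℕ} : Function.Injective (toFs : (Fin r → Fin (d + 1)) → _) := by
  intro γ γ' h
  funext k
  have := DFunLike.congr_fun h k
  rw [toFs_apply, toFs_apply] at this
  exact Fin.ext this

lemma aeval_eq_sum {r d : ℕ} (F : MvPolynomial (Fin r) ℤ) (hF : F.totalDegree ≤ d)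
    (x : Fin r → ℝ) :
    MvPolynomial.aeval x F = ∑ γ : Fin r → Fin (d + 1),
      ((MvPolynomial.coeff (toFs γ) F : ℤ) : ℝ) * ∏ k, x k ^ (γ k : ℕ) := by
  classical
  rw [MvPolynomial.aeval_def, MvPolynomial.eval₂_eq']
  have h1 : ∑ γ : Fin r → Fin (d + 1), ((MvPolynomial.coeff (toFs γ) F : ℤ) : ℝ) * ∏ k, x k ^ (γ k : ℕ) =
      ∑ y ∈ Finset.univ.image (toFs : (Fin r → Fin (d + 1)) → (Fin r →₀ ℕ)),
        ((MvPolynomial.coeff y F : ℤ) : ℝ) * ∏ k, x k ^ (y k) := by
    rw [Finset.sum_image (fun a _ b _ h => toFs_injective h)]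
    rfl
  rw [h1]
  apply Finset.sum_subset
  · intro y hy
    rw [Finset.mem_image]
    have h2 : ∀ k, y k < d + 1 := by
      intro k
      have h3 := MvPolynomial.le_totalDegree hy
      have h4 : y k ≤ y.sum fun _ e => e := by
        change y k ≤ ∑ i ∈ y.support, y i
        by_cases hk : k ∈ y.support
        · exact Finset.single_le_sum (f := fun i => y i) (fun _ _ => Nat.zero_le _) hk
        · rw [Finsupp.notMem_support_iff.mp hk]
          exact Nat.zero_le _
      omega
    refine ⟨fun k => ⟨y k, h2 k⟩, Finset.mem_univ _, ?_⟩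
    ext k
    rw [toFs_apply]
  · intro y _ hy
    rw [MvPolynomial.notMem_support_iff.mp hy]
    simp

end Pool.Agent.FourExp.G
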